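import Pool.Agent.Helper96.BC.St

/-!
# Project BC (MP_6090f9_nt), module C1: sizes of primes in extensions
-/

set_option autoImplicit false

namespace Pool.Agent.Helper47.BC

open NumberField IsDedekindDomain Polynomial Filter Topology
open Pool.Agent.Helper96.BC Pool.Agent.Helper95.TT
open scoped Classical

noncomputable section

variable {k K : Type} [Field k] [NumberField k] [Field K] [NumberField K] [Algebra k K]

private theorem lies_C1 {w : Pr K} {v : Pr k} (h : Above w v) : w.asIdeal.LiesOver v.asIdeal :=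
  ⟨h.symm⟩

private theorem above_under (w : Pr K) : Above w (HeightOneSpectrum.under (𝓞 k) w) := rfl

private theorem q_two_C1 (v : Pr k) : 2 ≤ q v := by
  have h0 : q v ≠ 0 := fun h => v.ne_bot (Ideal.absNorm_eq_zero_iff.1 h)
  have h1 : q v ≠ 1 := fun h => v.isPrime.ne_top (Ideal.absNorm_eq_one_iff.1 h)
  omega

private theorem q_pow_C1 {w : Pr K} {v : Pr k} (h : Above w v) :
    q v ^ (w.asIdeal.inertiaDeg (𝓞 k)) = q w := by
  have := lies_C1 h
  exact Ideal.absNorm_pow_inertiaDeg v.asIdeal w.asIdeal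

private theorem fin_C1 (v : Pr k) : {w : Pr K | Above w v}.Finite := by
  have h1 : Set.InjOn (fun w : Pr K => w.asIdeal) {w : Pr K | Above w v} := by
    intro w _ w' _ h
    exact HeightOneSpectrum.ext h
  refine Set.Finite.of_finite_image ?_ h1
  refine (IsDedekindDomain.primesOver_finite v.asIdeal (𝓞 K)).subset ?_
  rintro _ ⟨w, hw, rfl⟩
  exact ⟨w.isPrime, lies_C1 hw⟩

private theorem sum_C1 (v : Pr k) (S : Finset (Pr K)) (hS : ∀ w, w ∈ S ↔ Above w v) :
    ∑ w ∈ S, w.asIdeal.ramificationIdx (𝓞 k) * w.asIdeal.inertiaDeg (𝓞 k) =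
      Module.finrank k K := by
  have hfin : Module.finrank (𝓞 k) (𝓞 K) = Module.finrank k K := by
    rw [← IsFractionRing.finrank_eq (𝓞 k) k (𝓞 K) K]
  have h1 := Ideal.sum_ramification_inertia_eq_finrank v.asIdeal (𝓞 K)
  rw [hfin] at h1
  rw [← h1]
  refine Finset.sum_bij (fun w hw => ⟨w.asIdeal, w.isPrime, lies_C1 ((hS w).1 hw)⟩) ?_ ?_ ?_ ?_
  · intro w hw
    exact Finset.mem_univ _
  · intro w hw w' hw' h
    exact HeightOneSpectrum.ext (congrArg Subtype.val h)
  · rintro ⟨Q, hQp, hQl⟩ _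
    have hQb : Q ≠ ⊥ := Ideal.ne_bot_of_mem_primesOver v.ne_bot ⟨hQp, hQl⟩
    refine ⟨⟨Q, hQp, hQb⟩, ?_, rfl⟩
    rw [hS]
    exact hQl.over.symm
  · intro w hw
    rfl

theorem hC1 : StC1 := by
  intro k K _ _ _ _ _
  refine ⟨fun w => ⟨HeightOneSpectrum.under (𝓞 k) w, above_under w, fun v hv => ?_⟩, ?_, ?_, ?_⟩
  · apply HeightOneSpectrum.ext
    exact hv.symm
  · intro w v h
    have h1 := q_pow_C1 h
    have h2 : 0 < w.asIdeal.inertiaDeg (𝓞 k) := Ideal.inertiaDeg_pos _ _
    rcases Nat.lt_or_ge 1 (w.asIdeal.inertiaDeg (𝓞 k)) with h3 | h3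
    · right
      rw [← h1]
      exact Nat.pow_le_pow_right (by have := q_two_C1 v; omega) h3
    · left
      have h4 : w.asIdeal.inertiaDeg (𝓞 k) = 1 := by omega
      rw [h4, pow_one] at h1
      exact h1.symm
  · intro v
    have hf := fin_C1 (K := K) v
    refine ⟨hf, ?_⟩
    have h1 := sum_C1 v hf.toFinset (fun w => by simp)
    rw [← h1, Set.ncard_eq_toFinset_card _ hf, Finset.card_eq_sum_ones]
    refine Finset.sum_le_sum fun w _ => ?_
    have h2 : 0 < w.asIdeal.inertiaDeg (𝓞 k) := Ideal.inertiaDeg_pos _ _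
    have h3 : 0 < w.asIdeal.ramificationIdx (𝓞 k) := Ideal.ramificationIdx_pos _ _
    exact Nat.mul_pos h3 h2
  · exact q_two_C1

end

end Pool.Agent.Helper47.BC
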